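import Pool.Agent.H71.HV.Targets2

set_option autoImplicit false

open Set Topology TopologicalSpace Filter

namespace Pool.Agent.H87.HV
open Pool.Agent.H71.HV

universe u v

/-- small sets and limits in a Polish space -/
lemma exists_small (X : Type u) [TopologicalSpace X] [PolishSpace X] :
    ∃ sm : ℕ → Set X → Prop,
      (∀ n A B, B ⊆ A → sm n A → sm n B) ∧
      (∀ n (x : X), ∃ O : Set X, IsOpen O ∧ x ∈ O ∧ sm n O) ∧
      ∀ A : ℕ → Set X, (∀ n, (A n).Nonempty) → (∀ n, A (n + 1) ⊆ A n) → (∀ n, sm n (A n)) →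
        ∃ g : X, ∀ O : Set X, IsOpen O → g ∈ O → ∃ N, ∀ n ≥ N, A n ⊆ O := by
  letI := upgradeIsCompletelyMetrizable X
  refine ⟨fun n A => ∀ x ∈ A, ∀ y ∈ A, dist x y ≤ (1 / 2 : ℝ) ^ n, ?_, ?_, ?_⟩
  · intro n A B hBA hA x hx y hy
    exact hA x (hBA hx) y (hBA hy)
  · intro n x
    refine ⟨Metric.ball x ((1 / 2 : ℝ) ^ n / 2), Metric.isOpen_ball,
      Metric.mem_ball_self (by positivity), ?_⟩
    intro y hy z hz
    rw [Metric.mem_ball] at hy hz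
    calc dist y z ≤ dist y x + dist x z := dist_triangle _ _ _
      _ ≤ (1 / 2 : ℝ) ^ n / 2 + (1 / 2 : ℝ) ^ n / 2 := by
        rw [dist_comm x z]
        linarith
      _ = (1 / 2 : ℝ) ^ n := by ring
  · intro A hne hsub hsm
    have hanti : Antitone A := antitone_nat_of_succ_le hsub
    choose a ha using hne
    have hd : ∀ n m, n ≤ m → dist (a n) (a m) ≤ (1 / 2 : ℝ) ^ n := fun n m h =>
      hsm n _ (ha n) _ (hanti h (ha m))
    have h0 : Tendsto (fun n : ℕ => (1 / 2 : ℝ) ^ n) atTop (𝓝 0) :=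
      tendsto_pow_atTop_nhds_zero_of_lt_one (by norm_num) (by norm_num)
    have hC : CauchySeq a := by
      refine cauchySeq_of_le_tendsto_0' (fun n => (1 / 2 : ℝ) ^ n) ?_ h0
      intro n m h
      exact hd n m h
    obtain ⟨g, hg⟩ := cauchySeq_tendsto_of_complete hC
    have hdg : ∀ n, dist (a n) g ≤ (1 / 2 : ℝ) ^ n := by
      intro n
      have h1 : Tendsto (fun m => dist (a n) (a m)) atTop (𝓝 (dist (a n) g)) :=
        tendsto_const_nhds.dist hg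
      refine le_of_tendsto h1 ?_
      filter_upwards [eventually_ge_atTop n] with m hm
      exact hd n m hm
    refine ⟨g, ?_⟩
    intro O hO hgO
    obtain ⟨ε, hε, hεO⟩ := Metric.isOpen_iff.1 hO g hgO
    have h1 : ∀ᶠ n : ℕ in atTop, (1 / 2 : ℝ) ^ n < ε / 2 := h0.eventually_lt_const (by positivity)
    obtain ⟨N, hN⟩ := eventually_atTop.1 h1
    refine ⟨N, fun n hn x hx => hεO ?_⟩
    rw [Metric.mem_ball]
    calc dist x g ≤ dist x (a n) + dist (a n) g := dist_triangle _ _ _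
      _ ≤ (1 / 2 : ℝ) ^ n + (1 / 2 : ℝ) ^ n := add_le_add (hsm n _ hx _ (ha n)) (hdg n)
      _ < ε := by
        have := hN n hn
        linarith

theorem bf : BFStmt.{u} := by
  intro G _ _ _ F Q Q' h1 h2 V0 W0 h0
  obtain ⟨sm, sm1, sm2, sm3⟩ := exists_small G
  have hshr : ∀ (n V : ℕ), ∃ V0, F.B V0 ⊆ F.B V ∧ sm n (F.B V0) := by
    intro n V
    obtain ⟨v, hv⟩ := F.nonempty_B V
    obtain ⟨O, hO, hvO, hs⟩ := sm2 n v
    obtain ⟨V0, _, hV0⟩ := F.exists_token ((F.isOpen_B V).inter hO) (g := v) ⟨hv, hvO⟩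
    exact ⟨V0, hV0.trans inter_subset_left, sm1 n _ _ (hV0.trans inter_subset_right) hs⟩
  have step : ∀ (n : ℕ) (p : {p : ℕ × ℕ // Q p.1 p.2}), ∃ (p' : {p : ℕ × ℕ // Q' p.1 p.2})
      (q : {p : ℕ × ℕ // Q p.1 p.2}), F.B p'.1.1 ⊆ F.B p.1.1 ∧ F.B p'.1.2 ⊆ F.B p.1.2 ∧
        F.B q.1.1 ⊆ F.B p'.1.1 ∧ F.B q.1.2 ⊆ F.B p'.1.2 ∧ sm n (F.B p'.1.1) ∧
        sm n (F.B q.1.2) := by
    rintro n ⟨⟨V, W⟩, hVW⟩
    obtain ⟨V1, hV1, hs1⟩ := hshr n V
    obtain ⟨V', W', hV', hW', hQ'⟩ := h1 V W hVW V1 hV1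
    obtain ⟨W1, hW1, hs2⟩ := hshr n W'
    obtain ⟨V'', W'', hV'', hW'', hQ⟩ := h2 V' W' hQ' W1 hW1
    exact ⟨⟨(V', W'), hQ'⟩, ⟨(V'', W''), hQ⟩, hV'.trans hV1, hW', hV'', hW''.trans hW1,
      sm1 n _ _ hV' hs1, sm1 n _ _ hW'' hs2⟩
  choose f g hfg using step
  let s : ℕ → {p : ℕ × ℕ // Q p.1 p.2} := fun n =>
    Nat.rec ⟨(V0, W0), h0⟩ (fun n p => g n p) n
  have hs : ∀ n, s (n + 1) = g n (s n) := fun n => rfl
  have hA := fun n => hfg n (s n)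
  obtain ⟨x, hx⟩ := sm3 (fun n => F.B (f n (s n)).1.1) (fun n => F.nonempty_B _)
    (fun n => by
      show F.B (f (n + 1) (s (n + 1))).1.1 ⊆ F.B (f n (s n)).1.1
      refine (hA (n + 1)).1.trans ?_
      rw [hs]
      exact (hA n).2.2.1)
    (fun n => (hA n).2.2.2.2.1)
  obtain ⟨y, hy⟩ := sm3 (fun n => F.B (s (n + 1)).1.2) (fun n => F.nonempty_B _)
    (fun n => by
      show F.B (s (n + 1 + 1)).1.2 ⊆ F.B (s (n + 1)).1.2
      rw [hs (n + 1)]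
      exact ((hA (n + 1)).2.2.2.1).trans (hA (n + 1)).2.1)
    (fun n => by
      show sm n (F.B (s (n + 1)).1.2)
      rw [hs n]
      exact (hA n).2.2.2.2.2)
  refine ⟨x, y, fun n => (s n).1.1, fun n => (s n).1.2, fun n => (f n (s n)).1.1,
    fun n => (f n (s n)).1.2, fun n => (s n).2, fun n => (f n (s n)).2, ?_, ?_⟩
  · intro O hO hxO
    obtain ⟨N, hN⟩ := hx O hO hxO
    refine ⟨N + 1, fun n hn => ⟨?_, hN n (by omega)⟩⟩
    obtain ⟨m, rfl⟩ : ∃ m, n = m + 1 := ⟨n - 1, by omega⟩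
    show F.B (s (m + 1)).1.1 ⊆ O
    rw [hs]
    exact ((hA m).2.2.1).trans (hN m (by omega))
  · intro O hO hyO
    obtain ⟨N, hN⟩ := hy O hO hyO
    refine ⟨N + 1, fun n hn => ?_⟩
    obtain ⟨m, rfl⟩ : ∃ m, n = m + 1 := ⟨n - 1, by omega⟩
    refine ⟨hN m (by omega), ?_⟩
    exact ((hA (m + 1)).2.1).trans (hN m (by omega))

end Pool.Agent.H87.HV
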