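import Pool.Agent.H71.HV.Targets2

set_option autoImplicit false

open Set Topology TopologicalSpace Filter

namespace Pool.Agent.H87.HV
open Pool.Agent.H71.HV

universe u v

lemma ord12 (θ : Ordinal.{0}) : θ + 1 < θ + 2 :=
  (add_lt_add_iff_left θ).2 (by exact_mod_cast (by norm_num : (1 : ℕ) < 2))
lemma ord23 (θ : Ordinal.{0}) : θ + 2 < θ + 3 :=
  (add_lt_add_iff_left θ).2 (by exact_mod_cast (by norm_num : (2 : ℕ) < 3))
lemma ord01 (θ : Ordinal.{0}) : θ < θ + 1 := lt_add_one θ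

variable {G : Type u} {Y : Type v} [Group G] [MetricSpace G] [TopologicalSpace Y] [MulAction G Y]

lemma bt_mono (C : Ctx G Y) (i : ℕ) {r s : ℚ} (hr : 0 < r) (hrs : r ≤ s) :
    C.B (C.bt i r) ⊆ C.B (C.bt i s) := by
  rw [C.B_bt i r hr, C.B_bt i s (hr.trans_le hrs)]
  exact Metric.ball_subset_ball (by exact_mod_cast hrs)

lemma sub_top (C : Ctx G Y) (V : ℕ) : C.B V ⊆ C.B C.top := by
  rw [C.B_top]; exact subset_univ _

lemma bo_step (C : Ctx G Y) {x y : Y} {θ : Ordinal.{0}} (hst : C.Stb θ y)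
    (hxy : C.Le (θ + 3) x C.top y C.top) {V0 j : ℕ} {s e0 : ℚ} (hs : 0 < s) (he0 : 0 < e0)
    (h : ∀ e : ℚ, 0 < e → C.Le θ x V0 y (C.bt j (s + e))) :
    ∃ (i : ℕ) (r e1 : ℚ) (W' : ℕ), 0 < r ∧ 0 < e1 ∧ C.B (C.bt i (r + e1)) ⊆ C.B V0 ∧
      C.B W' ⊆ C.B (C.bt j (s + e0)) ∧ ∀ e : ℚ, 0 < e → C.Le θ y W' x (C.bt i (r + e)) := by
  obtain ⟨W1, _, hW1⟩ := hxy.step (ord23 θ) (sub_top C V0)
  obtain ⟨w, hw⟩ := C.nonempty_B W1
  obtain ⟨i2, r2, hr2, _, hsub2⟩ := C.exists_ball (C.isOpen_B W1) hw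
  obtain ⟨V1, hV1, hle1⟩ := hW1.step (ord12 θ) hsub2
  have h1 : C.Le θ y (C.bt i2 r2) x V0 :=
    (hW1.level ((ord01 θ).le.trans (ord12 θ).le)).mono hsub2 Subset.rfl
  have h2 : ∀ e : ℚ, 0 < e → C.Le θ y (C.bt i2 r2) y (C.bt j (s + e)) := fun e he =>
    h1.trans (h e he)
  have h3 := hst i2 j r2 s hr2 hs h2 e0 he0
  have h4 : C.Le (θ + 1) x V1 y (C.bt j (s + e0)) := hle1.trans h3
  obtain ⟨v, hv⟩ := C.nonempty_B V1
  obtain ⟨i, R, hR, _, hsub⟩ := C.exists_ball (C.isOpen_B V1) hv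
  obtain ⟨W', hW', hle⟩ := h4.step (ord01 θ)
    ((bt_mono C i (half_pos hR) (half_le_self hR.le)).trans hsub)
  refine ⟨i, R / 2, R / 2, W', half_pos hR, half_pos hR, ?_, hW', fun e he => ?_⟩
  · rw [add_halves]
    exact hsub.trans hV1
  · exact hle.mono Subset.rfl (bt_mono C i (half_pos hR) (by linarith))

theorem orbAsm : OrbAsmStmt.{u, v} := by
  intro hBF G Y _ _ _ _ _ _ _ _ C x y θ hx hy hxy hyx
  obtain ⟨W1, _, hW1⟩ := hxy.step (ord23 θ) (Subset.refl (C.B C.top))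
  obtain ⟨w, hw⟩ := C.nonempty_B W1
  obtain ⟨j, R, hR, _, hsub⟩ := C.exists_ball (C.isOpen_B W1) hw
  obtain ⟨V1, _, hle1⟩ := hW1.step (ord12 θ)
    ((bt_mono C j (half_pos hR) (half_le_self hR.le)).trans hsub)
  obtain ⟨g, h, V, W, V', W', hQ, _, hg, hh⟩ := hBF G C.toFrame
    (fun V W => ∃ (j : ℕ) (s e0 : ℚ), 0 < s ∧ 0 < e0 ∧ W = C.bt j (s + e0) ∧
      ∀ e : ℚ, 0 < e → C.Le θ x V y (C.bt j (s + e)))
    (fun V W => ∃ (i : ℕ) (r e0 : ℚ), 0 < r ∧ 0 < e0 ∧ V = C.bt i (r + e0) ∧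
      ∀ e : ℚ, 0 < e → C.Le θ y W x (C.bt i (r + e)))
    (by
      rintro V W ⟨j, s, e0, hs, he0, rfl, h⟩ V0 hV0
      obtain ⟨i, r, e1, W', h1, h2, h3, h4, h5⟩ := bo_step C hy hxy hs he0
        (V0 := V0) (fun e he => (h e he).mono hV0 Subset.rfl)
      exact ⟨C.bt i (r + e1), W', h3, h4, i, r, e1, h1, h2, rfl, h5⟩)
    (by
      rintro V W ⟨i, r, e0, hr, he0, rfl, h⟩ W0 hW0
      obtain ⟨j, s, e1, V', h1, h2, h3, h4, h5⟩ := bo_step C hx hyx hr he0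
        (V0 := W0) (fun e he => (h e he).mono hW0 Subset.rfl)
      exact ⟨V', C.bt j (s + e1), h4, h3, j, s, e1, h1, h2, rfl, h5⟩)
    V1 (C.bt j (R / 2 + R / 2))
    ⟨j, R / 2, R / 2, half_pos hR, half_pos hR, rfl, fun e he =>
      (hle1.level (ord01 θ).le).mono Subset.rfl (bt_mono C j (half_pos hR) (by linarith))⟩
  have hgh : g • x = h • y := by
    refine Ctx.smul_eq_of_shrink (C := C) V W (fun O hO hgO => ?_) (fun O hO hhO => ?_) ?_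
    · obtain ⟨N, hN⟩ := hg O hO hgO
      exact ⟨N, fun n hn => (hN n hn).1⟩
    · obtain ⟨N, hN⟩ := hh O hO hhO
      exact ⟨N, fun n hn => (hN n hn).1⟩
    · intro n k hk
      obtain ⟨j, s, e0, hs, he0, hW, hle⟩ := hQ n
      rw [hW]
      exact (hle e0 he0).hit k hk
  exact ⟨h⁻¹ * g, by rw [mul_smul, hgh, inv_smul_smul]⟩

end Pool.Agent.H87.HV
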