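import Pool.Agent.H71.HV.Targets2

set_option autoImplicit false

open Set

namespace Pool.Agent.H87.HV
open Pool.Agent.H71.HV

section
variable {Pos Ch M : Type} (ans : Ch → Pos → Pos → Prop) (tr : M → Pos → Prop)

/-- the position is lost, with rank at most `α` -/
def Lose (α : Ordinal.{0}) (p : Pos) : Prop :=
  (∀ m, ¬ tr m p) ∨ ∃ c, ∀ q, ans c p q → ∃ β, ∃ _ : β < α, Lose β q
termination_by α

lemma lose_iff (α : Ordinal.{0}) (p : Pos) : Lose ans tr α p ↔
    (∀ m, ¬ tr m p) ∨ ∃ c, ∀ q, ans c p q → ∃ β < α, Lose ans tr β q := by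
  rw [Lose]
  simp only [exists_prop]

end

theorem game : GameStmt := by
  classical
  intro κ Pos Ch M labs cl ans dom tr p0 hfin hcl hctb hmod hlab hans
  let L : Pos → Prop := fun p => ∃ α, Lose ans tr α p
  -- closure
  have hclos : ∀ p c, (∀ q, ans c p q → L q) → L p := by
    intro p c h
    have h' : ∀ q, ∃ α, ans c p q → Lose ans tr α q := by
      intro q
      by_cases hq : ans c p q
      · obtain ⟨α, hα⟩ := h q hq
        exact ⟨α, fun _ => hα⟩
      · exact ⟨0, fun h => absurd h hq⟩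
    choose g hg using h'
    refine ⟨Order.succ (⨆ q, g q), ?_⟩
    rw [lose_iff]
    exact Or.inr ⟨c, fun q hq => ⟨g q, Order.lt_succ_of_le (Ordinal.le_iSup g q), hg q hq⟩⟩
  -- rank
  let r : Pos → Ordinal.{0} := fun p => sInf {α | Lose ans tr α p}
  have hr : ∀ p, L p → Lose ans tr (r p) p := fun p hp => csInf_mem (s := {α | Lose ans tr α p}) hp
  have hr' : ∀ p β, Lose ans tr β p → r p ≤ β := fun p β h => csInf_le' h
  have hT : ∀ p, ∃ T : Set κ, T.Countable ∧ (L p → ∀ m, tr m p → T ⊆ dom m →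
      ∃ q, tr m q ∧ L q ∧ r q < r p) := by
    intro p
    by_cases hp : L p
    · rcases (lose_iff ans tr (r p) p).1 (hr p hp) with h1 | ⟨c, hc⟩
      · exact ⟨∅, countable_empty, fun _ m hm => absurd hm (h1 m)⟩
      · refine ⟨cl c, hcl c, fun _ m hm hsub => ?_⟩
        obtain ⟨q, hq, hmq⟩ := hans m p c hm hsub
        obtain ⟨β, hβ, hl⟩ := hc q hq
        exact ⟨q, hmq, ⟨β, hl⟩, lt_of_le_of_lt (hr' q β hl) hβ⟩
    · exact ⟨∅, countable_empty, fun h => absurd h hp⟩
  choose T hTc hTp using hT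
  let H : ℕ → Set κ := fun n => Nat.rec (labs p0) (fun _ A => A ∪ ⋃ p ∈ {p | labs p ⊆ A}, T p) n
  have hH0 : H 0 = labs p0 := rfl
  have hHs : ∀ n, H (n + 1) = H n ∪ ⋃ p ∈ {p | labs p ⊆ H n}, T p := fun n => rfl
  have hHc : ∀ n, (H n).Countable := by
    intro n
    induction n with
    | zero => rw [hH0]; exact (hfin p0).countable
    | succ n ih =>
      rw [hHs]
      exact ih.union ((hctb _ ih).biUnion fun p _ => hTc p)
  have hHm : Monotone H := monotone_nat_of_le_succ fun n => by
    rw [hHs]; exact subset_union_left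
  let K : Set κ := ⋃ n, H n
  have hK : K.Countable := countable_iUnion hHc
  have hKT : ∀ p, labs p ⊆ K → T p ⊆ K := by
    intro p hp
    have h1 : ∀ x, ∃ n, x ∈ labs p → x ∈ H n := by
      intro x
      by_cases hx : x ∈ labs p
      · obtain ⟨n, hn⟩ := mem_iUnion.1 (hp hx)
        exact ⟨n, fun _ => hn⟩
      · exact ⟨0, fun h => absurd h hx⟩
    choose ν hν using h1
    have h2 : ∃ n, labs p ⊆ H n := by
      obtain ⟨n, hn⟩ := ((hfin p).image ν).bddAbove
      exact ⟨n, fun x hx => hHm (hn (mem_image_of_mem ν hx)) (hν x hx)⟩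
    obtain ⟨n, hn⟩ := h2
    refine Subset.trans ?_ (subset_iUnion H (n + 1))
    rw [hHs]
    exact (subset_biUnion_of_mem (u := fun p => T p) (show p ∈ {p | labs p ⊆ H n} from hn)).trans
      subset_union_right
  obtain ⟨m, hm, hm0⟩ := hmod K hK
  have hno : ∀ (α : Ordinal.{0}) p, r p = α → L p → ¬ tr m p := by
    intro α
    induction α using WellFoundedLT.induction with
    | _ α ih =>
      intro p hp hL hmp
      have h1 : T p ⊆ dom m := by
        rw [hm]
        apply hKT
        rw [← hm]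
        exact hlab m p hmp
      obtain ⟨q, hq1, hq2, hq3⟩ := hTp p hL m hmp h1
      exact ih (r q) (hp ▸ hq3) q rfl hq2 hq1
  refine ⟨{p | ¬ L p}, ?_, ?_, ?_⟩
  · exact fun h => hno _ p0 rfl h hm0
  · intro p hp
    by_contra hc
    push Not at hc
    exact hp ⟨0, (lose_iff ans tr 0 p).2 (Or.inl hc)⟩
  · intro p hp c
    by_contra hc
    push Not at hc
    apply hp
    apply hclos p c
    intro q hq
    by_contra hq'
    exact hc q hq' hq

end Pool.Agent.H87.HV
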