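import Pool.Agent.H71.HV.Targets2

set_option autoImplicit false

open Set Topology TopologicalSpace Filter

namespace Pool.Agent.H87.HV
open Pool.Agent.H71.HV

universe u v

theorem kAsm : KAsmStmt.{u, v} := by
  intro hBF G Y _ _ _ _ _ _ _ _ C x y Rp Rm hC
  obtain ⟨g, h, V, W, V', W', hQ, hQ', hg, hh⟩ := hBF G C.toFrame Rp (fun V W => Rm W V)
    (fun V W hVW V0 hV0 => by
      obtain ⟨Z', h1, h2⟩ := hC.fwd V W V0 hVW hV0
      exact ⟨V0, Z', Subset.rfl, h1, h2⟩)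
    (fun V W hVW W0 hW0 => by
      obtain ⟨V', h1, h2⟩ := hC.bwd W V W0 hVW hW0
      exact ⟨V', W0, h1, Subset.rfl, h2⟩) C.top C.top hC.top
  have hgh : g • x = h • y := by
    refine Ctx.smul_eq_of_shrink V W (fun O hO hgO => ?_) (fun O hO hhO => ?_)
      fun n k hk => hC.hitp _ _ k (hQ n) hk
    · obtain ⟨N, hN⟩ := hg O hO hgO
      exact ⟨N, fun n hn => (hN n hn).1⟩
    · obtain ⟨N, hN⟩ := hh O hO hhO
      exact ⟨N, fun n hn => (hN n hn).1⟩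
  -- approximation
  have key : ∀ (a0 : G) (O1 O2 : Set G), IsOpen O1 → IsOpen O2 → a0 * g ∈ O1 → a0 * h ∈ O2 →
      ∃ i N, ∀ n ≥ N, (∀ v ∈ C.B (V n) ∪ C.B (V' n), C.cen i * v ∈ O1) ∧
        ∀ w ∈ C.B (W n) ∪ C.B (W' n), C.cen i * w ∈ O2 := by
    intro a0 O1 O2 hO1 hO2 h1 h2
    have c1 : ∀ᶠ p : G × G in 𝓝 a0 ×ˢ 𝓝 g, p.1 * p.2 ∈ O1 := by
      rw [← nhds_prod_eq]
      exact (continuous_mul.tendsto (a0, g)).eventually (hO1.mem_nhds h1)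
    have c2 : ∀ᶠ p : G × G in 𝓝 a0 ×ˢ 𝓝 h, p.1 * p.2 ∈ O2 := by
      rw [← nhds_prod_eq]
      exact (continuous_mul.tendsto (a0, h)).eventually (hO2.mem_nhds h2)
    obtain ⟨pa, hpa, pb, hpb, hp⟩ := eventually_prod_iff.1 c1
    obtain ⟨qa, hqa, qb, hqb, hq⟩ := eventually_prod_iff.1 c2
    obtain ⟨Na, hNa1, hNa2, hNa3⟩ := mem_nhds_iff.1 (hpa.and hqa)
    obtain ⟨Ng, hNg1, hNg2, hNg3⟩ := mem_nhds_iff.1 hpb
    obtain ⟨Nh, hNh1, hNh2, hNh3⟩ := mem_nhds_iff.1 hqb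
    obtain ⟨i, hi⟩ := C.dense_cen.exists_mem_open hNa2 ⟨a0, hNa3⟩
    obtain ⟨N1, hN1⟩ := hg Ng hNg2 hNg3
    obtain ⟨N2, hN2⟩ := hh Nh hNh2 hNh3
    refine ⟨i, max N1 N2, fun n hn => ⟨fun v hv => ?_, fun w hw => ?_⟩⟩
    · have hv' : v ∈ Ng := by
        rcases hv with hv | hv
        · exact (hN1 n (le_trans (le_max_left _ _) hn)).1 hv
        · exact (hN1 n (le_trans (le_max_left _ _) hn)).2 hv
      exact hp (hNa1 hi).1 (hNg1 hv')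
    · have hw' : w ∈ Nh := by
        rcases hw with hw | hw
        · exact (hN2 n (le_trans (le_max_right _ _) hn)).1 hw
        · exact (hN2 n (le_trans (le_max_right _ _) hn)).2 hw
      exact hq (hNa1 hi).2 (hNh1 hw')
  have htr : ∀ i n (O : Set G), (∀ v ∈ C.B n, C.cen i * v ∈ O) → C.B (C.tr i n) ⊆ O := by
    intro i n O hO
    rw [C.B_tr]
    rintro _ ⟨v, hv, rfl⟩
    exact hO v hv
  refine ⟨h⁻¹ * g, ?_, ?_, ?_⟩
  · rw [mul_smul, hgh, inv_smul_smul]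
  · intro V1 Z1 hVZ
    rcases hC.satp V1 Z1 with h1 | ⟨V2, hV2, h1⟩
    · exact h1
    · exfalso
      obtain ⟨v, hv⟩ := C.nonempty_B V2
      have e1 : v * g⁻¹ * g ∈ C.B V2 := by rwa [inv_mul_cancel_right]
      have e2 : v * g⁻¹ * h ∈ C.B Z1 := by
        have := hVZ v (hV2 hv)
        rwa [mul_inv_rev, inv_inv, ← mul_assoc] at this
      obtain ⟨i, N, hN⟩ := key (v * g⁻¹) _ _ (C.isOpen_B V2) (C.isOpen_B Z1) e1 e2
      obtain ⟨hN1, hN2⟩ := hN N le_rfl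
      have s1 : C.B (C.tr i (V' N)) ⊆ C.B V2 := htr _ _ _ fun v hv => hN1 v (Or.inr hv)
      have s2 : C.B (C.tr i (W' N)) ⊆ C.B Z1 := htr _ _ _ fun v hv => hN2 v (Or.inr hv)
      exact h1 _ s2 (hC.monm _ _ _ _ Subset.rfl s1 (hC.trm i _ _ (hQ' N)))
  · intro Z1 V1 hZV
    rcases hC.satm Z1 V1 with h1 | ⟨Z2, hZ2, h1⟩
    · exact h1
    · exfalso
      obtain ⟨w, hw⟩ := C.nonempty_B Z2
      have e1 : w * h⁻¹ * h ∈ C.B Z2 := by rwa [inv_mul_cancel_right]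
      have e2 : w * h⁻¹ * g ∈ C.B V1 := by
        have := hZV w (hZ2 hw)
        rwa [← mul_assoc] at this
      obtain ⟨i, N, hN⟩ := key (w * h⁻¹) _ _ (C.isOpen_B V1) (C.isOpen_B Z2) e2 e1
      obtain ⟨hN1, hN2⟩ := hN N le_rfl
      have s1 : C.B (C.tr i (V N)) ⊆ C.B V1 := htr _ _ _ fun v hv => hN1 v (Or.inl hv)
      have s2 : C.B (C.tr i (W N)) ⊆ C.B Z2 := htr _ _ _ fun v hv => hN2 v (Or.inl hv)
      exact h1 _ s1 (hC.monp _ _ _ _ Subset.rfl s2 (hC.trp i _ _ (hQ N)))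

end Pool.Agent.H87.HV
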